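import Pool.Agent.TH668.Met.Main

set_option autoImplicit false

/-! The case of the Lebesgue measure. -/

namespace Pool.Agent.TH668.Met

open Finset Filter MeasureTheory
open Pool.Agent.H469R2.NK (e norm_e e_add conj_e)
open Pool.Agent.W147.PS (ff ev_pow)

lemma e_eq (ξ x : ℝ) : e (ξ * x) = Complex.exp (2 * Real.pi * (ξ * x) * Complex.I) := by
  unfold e
  push_cast
  rfl

lemma decay_leb (K : ℝ) (hK : 0 ≤ K) (ξ : ℝ) (hξ : 1 ≤ |ξ|) :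
    ‖∫ x, e (ξ * x) ∂(volume.restrict (Set.Ioc (-K) K))‖ ≤ 1 * |ξ| ^ (-(1 : ℝ)) := by
  have hξ0 : 0 < |ξ| := by linarith
  have hξne : ξ ≠ 0 := abs_pos.mp hξ0
  set c : ℂ := 2 * Real.pi * ξ * Complex.I with hc
  have hcn : ‖c‖ = 2 * Real.pi * |ξ| := by
    rw [hc, norm_mul, norm_mul, norm_mul, Complex.norm_I, mul_one, Complex.norm_real,
      Complex.norm_real, Complex.norm_ofNat, Real.norm_eq_abs, Real.norm_eq_abs,
      abs_of_pos Real.pi_pos]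
  have hcne : c ≠ 0 := by
    rw [← norm_pos_iff, hcn]
    have := Real.pi_pos
    positivity
  rw [← intervalIntegral.integral_of_le (by linarith)]
  have e1 : ∀ x : ℝ, e (ξ * x) = Complex.exp (c * x) := by
    intro x
    rw [e_eq, hc]
    congr 1
    ring
  simp_rw [e1]
  rw [integral_exp_mul_complex hcne, norm_div, hcn]
  have h2 : ∀ y : ℝ, ‖Complex.exp (c * y)‖ = 1 := by
    intro y
    rw [← e1, norm_e]
  have h3 : ‖Complex.exp (c * (K : ℝ)) - Complex.exp (c * ((-K : ℝ) : ℂ))‖ ≤ 2 := by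
    refine (norm_sub_le _ _).trans ?_
    rw [h2, h2]
    norm_num
  rw [one_mul, Real.rpow_neg hξ0.le, Real.rpow_one, div_le_iff₀ (by have := Real.pi_pos; positivity)]
  refine h3.trans ?_
  have h4 : |ξ|⁻¹ * (2 * Real.pi * |ξ|) = 2 * Real.pi := by field_simp
  rw [h4]
  have := Real.pi_gt_three
  linarith

theorem metric_leb (ρ ε : ℝ) (hρ : 0 < ρ) (hρ1 : ρ ≤ 1) (hε : 0 < ε) :
    ∃ κ : ℝ, 0 < κ ∧
      ∀ a b : ℕ → ℝ, (∀ᶠ n : ℕ in atTop, (n : ℝ) ^ (ρ - 1) ≤ a (n + 1) - a n) →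
      ∀ᵐ α : ℝ, (∀ᶠ n : ℕ in atTop, (n : ℝ) ^ ε ≤ α * a n + b n) →
        ∀ᶠ M : ℝ in atTop, ∃ n : ℕ, M < n ∧ (n : ℝ) ≤ 4 * M ∧
          ∀ q : ℕ, q.Prime → κ * ff M < |(q : ℝ) - (α * a n + b n)| := by
  obtain ⟨κ, hκ, h⟩ := metric 1 ρ ε one_pos hρ hρ1 hε
  refine ⟨κ, hκ, fun a b ha => ?_⟩
  have h1 : ∀ K : ℕ, ∀ᵐ α ∂(volume.restrict (Set.Ioc (-(K : ℝ)) K)),
      (∀ᶠ n : ℕ in atTop, (n : ℝ) ^ ε ≤ α * a n + b n) →
        ∀ᶠ M : ℝ in atTop, ∃ n : ℕ, M < n ∧ (n : ℝ) ≤ 4 * M ∧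
          ∀ q : ℕ, q.Prime → κ * ff M < |(q : ℝ) - (α * a n + b n)| := fun K =>
    h _ 1 (fun ξ hξ => decay_leb K (Nat.cast_nonneg K) ξ hξ) a b ha
  have h2 := (ae_restrict_iUnion_iff (μ := volume) (fun K : ℕ => Set.Ioc (-(K : ℝ)) K) _).mpr h1
  have h3 : (⋃ K : ℕ, Set.Ioc (-(K : ℝ)) K) = Set.univ := by
    rw [Set.eq_univ_iff_forall]
    intro x
    obtain ⟨K, hK⟩ := exists_nat_gt |x|
    rw [Set.mem_iUnion]
    exact ⟨K, (abs_lt.mp hK).1, (abs_lt.mp hK).2.le⟩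
  rwa [h3, Measure.restrict_univ] at h2

end Pool.Agent.TH668.Met
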