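import Pool.Agent.TH915.PW.Scaled

set_option autoImplicit false

/-! Mean squares of exponential sums with respect to measures whose Fourier transform decays. -/

namespace Pool.Agent.TH668.Met

open Finset Filter MeasureTheory
open Pool.Agent.H469R2.NK (e norm_e e_add conj_e)

lemma continuous_e : Continuous e := by
  unfold e
  fun_prop

lemma integrable_e (μ : Measure ℝ) [IsFiniteMeasure μ] (ξ : ℝ) :
    Integrable (fun x => e (ξ * x)) μ := by
  refine Integrable.of_bound (Continuous.aestronglyMeasurable ?_) 1 ?_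
  · exact continuous_e.comp (continuous_const.mul continuous_id)
  · exact Eventually.of_forall fun x => (norm_e _).le

lemma sq_expand (s : Finset ℕ) (x b : ℕ → ℝ) (θ α : ℝ) :
    ((‖∑ n ∈ s, e (θ * (α * x n + b n))‖ ^ 2 : ℝ) : ℂ) =
      ∑ n ∈ s, ∑ m ∈ s, e (θ * (b n - b m)) * e ((θ * (x n - x m)) * α) := by
  push_cast
  rw [← Complex.mul_conj', map_sum, sum_mul_sum]
  refine sum_congr rfl fun n _ => sum_congr rfl fun m _ => ?_
  rw [conj_e, ← e_add, ← e_add]
  congr 1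
  ring

lemma mean_sq (μ : Measure ℝ) [IsFiniteMeasure μ] (s : Finset ℕ) (x b : ℕ → ℝ) (θ : ℝ) :
    ∫ α, ‖∑ n ∈ s, e (θ * (α * x n + b n))‖ ^ 2 ∂μ ≤
      ∑ n ∈ s, ∑ m ∈ s, ‖∫ α, e ((θ * (x n - x m)) * α) ∂μ‖ := by
  have h1 : ((∫ α, ‖∑ n ∈ s, e (θ * (α * x n + b n))‖ ^ 2 ∂μ : ℝ) : ℂ) =
      ∑ n ∈ s, ∑ m ∈ s, e (θ * (b n - b m)) * ∫ α, e ((θ * (x n - x m)) * α) ∂μ := by
    rw [← integral_complex_ofReal]
    simp_rw [sq_expand]
    rw [integral_finsetSum _ fun n _ => integrable_finsetSum _ fun m _ =>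
      (integrable_e μ _).const_mul _]
    refine sum_congr rfl fun n _ => ?_
    rw [integral_finsetSum _ fun m _ => (integrable_e μ _).const_mul _]
    refine sum_congr rfl fun m _ => ?_
    rw [integral_const_mul]
  calc ∫ α, ‖∑ n ∈ s, e (θ * (α * x n + b n))‖ ^ 2 ∂μ =
      ‖((∫ α, ‖∑ n ∈ s, e (θ * (α * x n + b n))‖ ^ 2 ∂μ : ℝ) : ℂ)‖ := by
        rw [Complex.norm_real, Real.norm_of_nonneg (integral_nonneg fun α => by positivity)]
    _ ≤ _ := by
        rw [h1]
        refine (norm_sum_le _ _).trans (sum_le_sum fun n _ => (norm_sum_le _ _).trans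
          (sum_le_sum fun m _ => ?_))
        rw [norm_mul, norm_e, one_mul]

lemma pair_sum (s : Finset ℕ) (F : ℕ → ℕ → ℝ) (m₀ t : ℝ) (H : ℕ) (hH : 1 ≤ H)
    (hnear : ∀ n m, F n m ≤ m₀)
    (hfar : ∀ n ∈ s, ∀ m ∈ s, n + H ≤ m ∨ m + H ≤ n → F n m ≤ t) (ht : 0 ≤ t) (hm : 0 ≤ m₀) :
    ∑ n ∈ s, ∑ m ∈ s, F n m ≤ s.card * (2 * H) * m₀ + (s.card : ℝ) ^ 2 * t := by
  have h1 : ∀ n ∈ s, ∑ m ∈ s, F n m ≤ (2 * H) * m₀ + s.card * t := by
    intro n hn
    have h2 : ∀ m ∈ s, F n m ≤ (if n < m + H ∧ m < n + H then m₀ else 0) + t := by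
      intro m hm'
      split_ifs with h
      · have := hnear n m
        linarith
      · rw [zero_add]
        exact hfar n hn m hm' (by omega)
    have h3 : (∑ m ∈ s, (if n < m + H ∧ m < n + H then m₀ else 0)) ≤ 2 * H * m₀ := by
      rw [← sum_filter, sum_const, nsmul_eq_mul]
      apply mul_le_mul_of_nonneg_right _ hm
      have h4 : (s.filter fun m => n < m + H ∧ m < n + H) ⊆ Finset.Ico (n + 1 - H) (n + H) := by
        intro m hm'
        rw [mem_filter] at hm'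
        rw [Finset.mem_Ico]
        omega
      have h5 := card_le_card h4
      rw [Nat.card_Ico] at h5
      have h6 : (s.filter fun m => n < m + H ∧ m < n + H).card ≤ 2 * H := by omega
      exact_mod_cast h6
    calc ∑ m ∈ s, F n m ≤ ∑ m ∈ s, ((if n < m + H ∧ m < n + H then m₀ else 0) + t) := sum_le_sum h2
      _ = (∑ m ∈ s, (if n < m + H ∧ m < n + H then m₀ else 0)) + s.card * t := by
          rw [sum_add_distrib, sum_const, nsmul_eq_mul]
      _ ≤ _ := by linarith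
  calc ∑ n ∈ s, ∑ m ∈ s, F n m ≤ ∑ n ∈ s, ((2 * H) * m₀ + s.card * t) := sum_le_sum h1
    _ = _ := by
        rw [sum_const, nsmul_eq_mul]
        ring

/-- a summable sequence of mean values: almost everywhere the functions are eventually at most one -/
lemma ae_ev (μ : Measure ℝ) (G : ℕ → ℝ → ℝ) (hG : ∀ j, Integrable (G j) μ)
    (h0 : ∀ j x, 0 ≤ G j x) (c r : ℝ) (hc : 0 ≤ c) (hr0 : 0 ≤ r) (hr : r < 1) (J : ℕ)
    (hb : ∀ j, J ≤ j → ∫ x, G j x ∂μ ≤ c * r ^ j) :
    ∀ᵐ x ∂μ, ∀ᶠ j in atTop, G j x ≤ 1 := by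
  have h1 : ∫⁻ x, ∑' j, ENNReal.ofReal (G (j + J) x) ∂μ ≠ ⊤ := by
    rw [lintegral_tsum fun j => (hG (j + J)).aestronglyMeasurable.aemeasurable.ennreal_ofReal]
    have h2 : ∀ j, ∫⁻ x, ENNReal.ofReal (G (j + J) x) ∂μ ≤ ENNReal.ofReal (c * r ^ (j + J)) := by
      intro j
      rw [← ofReal_integral_eq_lintegral_ofReal (hG (j + J)) (Eventually.of_forall (h0 (j + J)))]
      exact ENNReal.ofReal_le_ofReal (hb (j + J) (by omega))
    have h3 : Summable fun j : ℕ => c * r ^ (j + J) := by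
      have h4 : Summable fun j : ℕ => (c * r ^ J) * r ^ j :=
        (summable_geometric_of_lt_one hr0 hr).mul_left _
      refine h4.congr fun j => ?_
      rw [pow_add]
      ring
    refine ne_top_of_le_ne_top ?_ (ENNReal.tsum_le_tsum h2)
    rw [← ENNReal.ofReal_tsum_of_nonneg (fun j => by positivity) h3]
    exact ENNReal.ofReal_ne_top
  have h5 : AEMeasurable (fun x => ∑' j, ENNReal.ofReal (G (j + J) x)) μ :=
    AEMeasurable.ennreal_tsum fun j => (hG (j + J)).aestronglyMeasurable.aemeasurable.ennreal_ofReal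
  filter_upwards [ae_lt_top' h5 h1] with x hx
  have h6 := ENNReal.tendsto_atTop_zero_of_tsum_ne_top hx.ne
  have h7 : ∀ᶠ j in atTop, ENNReal.ofReal (G (j + J) x) < 1 :=
    h6.eventually (gt_mem_nhds (by norm_num))
  obtain ⟨j₀, hj₀⟩ := eventually_atTop.mp h7
  refine eventually_atTop.mpr ⟨j₀ + J, fun j hj => ?_⟩
  have h8 := hj₀ (j - J) (by omega)
  rw [Nat.sub_add_cancel (by omega)] at h8
  have h9 := ENNReal.ofReal_lt_one.mp h8
  exact h9.le

end Pool.Agent.TH668.Met
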