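import Pool.Agent.TH668.Met.Gen

set_option autoImplicit false

/-! Almost every exponent. -/

namespace Pool.Agent.TH668.Met

open Finset Filter MeasureTheory
open Pool.Agent.W147.PS (ff ev_pow)

lemma fam_pow (a : ℕ → ℕ) (ha : StrictMono a) (ha1 : ∀ n, 1 ≤ a n) (b : ℕ → ℝ) (v : ℝ) :
    Fam 1 v 1 3 (fun n x => (a n : ℝ) ^ x + b n) (fun n x => (a n : ℝ) ^ x * Real.log (a n))
      (fun n x => (a n : ℝ) ^ x * Real.log (a n) * Real.log (a n)) := by
  have hpos : ∀ n, (0 : ℝ) < a n := fun n => by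
    have := ha1 n
    exact_mod_cast this
  have hd : ∀ n x, HasDerivAt (fun x : ℝ => (a n : ℝ) ^ x) ((a n : ℝ) ^ x * Real.log (a n)) x :=
    fun n x => (Real.hasStrictDerivAt_const_rpow (hpos n) x).hasDerivAt
  have hge : ∀ n, n ≤ a n := fun n => ha.id_le n
  have hstep : ∀ n, (a n : ℝ) + 1 ≤ a (n + 1) := fun n => by
    have : a n + 1 ≤ a (n + 1) := ha (Nat.lt_succ_self n)
    exact_mod_cast this
  refine ⟨fun n x => (hd n x).add_const _, fun n x => (hd n x).mul_const _, ?_, ?_, ?_⟩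
  · intro n
    have : Continuous fun x : ℝ => (a n : ℝ) ^ x :=
      continuous_iff_continuousAt.2 fun x => (hd n x).continuousAt
    exact (this.mul continuous_const).mul continuous_const
  · intro n hn x hx
    rw [sub_self, Real.rpow_zero]
    have hx1 : 1 ≤ x := hx.1
    have h1 : (1 : ℝ) ≤ a n := by exact_mod_cast ha1 n
    have h0 := hpos n
    have h2 : (a n : ℝ) ^ x + 1 ≤ (a (n + 1) : ℝ) ^ x := by
      have h3 : ((a n : ℝ) + 1) ^ x ≤ (a (n + 1) : ℝ) ^ x :=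
        Real.rpow_le_rpow (by linarith) (hstep n) (by linarith)
      refine le_trans ?_ h3
      have e1 : ∀ y : ℝ, 0 < y → y ^ x = y * y ^ (x - 1) := by
        intro y hy
        have := Real.rpow_add hy 1 (x - 1)
        rw [add_sub_cancel, Real.rpow_one] at this
        exact this
      rw [e1 _ h0, e1 _ (by linarith : (0 : ℝ) < a n + 1)]
      have h4 : (a n : ℝ) ^ (x - 1) ≤ ((a n : ℝ) + 1) ^ (x - 1) :=
        Real.rpow_le_rpow h0.le (by linarith) (by linarith)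
      have h5 : 1 ≤ (a n : ℝ) ^ (x - 1) := Real.one_le_rpow h1 (by linarith)
      nlinarith
    have h6 : (4 : ℝ) ≤ a (n + 1) := by
      have := hge (n + 1)
      have h7 : 4 ≤ a (n + 1) := by omega
      exact_mod_cast h7
    have h8 : 1 ≤ Real.log (a (n + 1)) := by
      rw [Real.le_log_iff_exp_le (by linarith)]
      have := Real.exp_one_lt_d9
      linarith
    have h9 : Real.log (a n) ≤ Real.log (a (n + 1)) :=
      Real.log_le_log h0 (by have := hstep n; linarith)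
    have h10 : 0 ≤ Real.log (a n) := Real.log_nonneg h1
    have h11 : 0 ≤ (a n : ℝ) ^ x := by positivity
    show (1 : ℝ) ≤ (a (n + 1) : ℝ) ^ x * Real.log (a (n + 1)) - (a n : ℝ) ^ x * Real.log (a n)
    nlinarith
  · intro n hn x hx
    have hx1 : 1 ≤ x := hx.1
    have h1 : (1 : ℝ) ≤ a n := by exact_mod_cast ha1 n
    have h0 := hpos n
    have h2 : (a n : ℝ) ^ x ≤ (a (n + 1) : ℝ) ^ x :=
      Real.rpow_le_rpow h0.le (by have := hstep n; linarith) (by linarith)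
    have h9 : Real.log (a n) ≤ Real.log (a (n + 1)) :=
      Real.log_le_log h0 (by have := hstep n; linarith)
    have h10 : 0 ≤ Real.log (a n) := Real.log_nonneg h1
    have h11 : 0 ≤ (a n : ℝ) ^ x := by positivity
    show 0 ≤ (a (n + 1) : ℝ) ^ x * Real.log (a (n + 1)) * Real.log (a (n + 1)) -
      (a n : ℝ) ^ x * Real.log (a n) * Real.log (a n)
    rw [sub_nonneg]
    gcongr

theorem exponents (ε : ℝ) (hε : 0 < ε) :
    ∃ κ : ℝ, 0 < κ ∧ ∀ a : ℕ → ℕ, StrictMono a → (∀ n, 1 ≤ a n) → ∀ b : ℕ → ℝ,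
      ∀ᵐ x : ℝ, 1 < x → (∀ᶠ n : ℕ in atTop, (n : ℝ) ^ ε ≤ (a n : ℝ) ^ x + b n) →
        ∀ᶠ M : ℝ in atTop, ∃ n : ℕ, M < n ∧ (n : ℝ) ≤ 4 * M ∧
          ∀ q : ℕ, q.Prime → κ * ff M < |(q : ℝ) - ((a n : ℝ) ^ x + b n)| := by
  obtain ⟨κ, hκ, h⟩ := metric_gen 1 ε one_pos le_rfl hε
  refine ⟨κ, hκ, fun a ha ha1 b => ?_⟩
  have h1 : ∀ K : ℕ, ∀ᵐ x ∂(volume.restrict (Set.Ioc (1 : ℝ) (K + 1))),
      (∀ᶠ n : ℕ in atTop, (n : ℝ) ^ ε ≤ (a n : ℝ) ^ x + b n) →
        ∀ᶠ M : ℝ in atTop, ∃ n : ℕ, M < n ∧ (n : ℝ) ≤ 4 * M ∧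
          ∀ q : ℕ, q.Prime → κ * ff M < |(q : ℝ) - ((a n : ℝ) ^ x + b n)| := fun K =>
    h 1 (K + 1) (by have : (0 : ℝ) ≤ K := Nat.cast_nonneg K
                    linarith) 3 _ _ _ (fam_pow a ha ha1 b (K + 1))
  have h2 := (ae_restrict_iUnion_iff (μ := volume) (fun K : ℕ => Set.Ioc (1 : ℝ) (K + 1)) _).mpr h1
  have h3 : (⋃ K : ℕ, Set.Ioc (1 : ℝ) (K + 1)) = Set.Ioi 1 := by
    ext x
    rw [Set.mem_iUnion]
    constructor
    · rintro ⟨K, hK⟩
      exact hK.1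
    · intro hx
      obtain ⟨K, hK⟩ := exists_nat_gt x
      exact ⟨K, hx, by linarith⟩
  rw [h3, ae_restrict_iff' measurableSet_Ioi] at h2
  exact h2

end Pool.Agent.TH668.Met
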