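import Pool.Agent.TH668.Met.Greedy

set_option autoImplicit false

/-! Affine images of measures with Fourier decay meet record gaps. -/

namespace Pool.Agent.TH668.Met

open Finset Filter MeasureTheory
open Pool.Agent.TH915.PW
open Pool.Agent.H469R2.NK (e norm_e e_add conj_e)
open Pool.Agent.W147.PS (ff ev_pow)

set_option maxHeartbeats 4000000 in
theorem fractal (τ ε : ℝ) (hτ : 0 < τ) (hε : 0 < ε) :
    ∃ κ : ℝ, 0 < κ ∧ ∀ C : ℝ, ∃ Z₀ : ℝ, ∀ (μ : Measure ℝ) [IsProbabilityMeasure μ],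
      (∀ ξ : ℝ, 1 ≤ |ξ| → ‖∫ x, e (ξ * x) ∂μ‖ ≤ C * |ξ| ^ (-τ)) →
      ∀ Z : ℝ, Z₀ ≤ Z → ∀ Y : ℝ, (∀ᵐ x ∂μ, Z ^ ε ≤ Y + Z * x) →
        Z ^ (-ε) ≤ μ.real {x | ∀ q : ℕ, q.Prime → κ * ff Z < |(q : ℝ) - (Y + Z * x)|} := by
  set η : ℝ := min (min ε (τ / 4)) 1 / 14 with hη
  have hη0 : 0 < η := by
    have : 0 < min (min ε (τ / 4)) 1 := lt_min (lt_min hε (by positivity)) one_pos
    positivity
  have hη14 : 14 * η = min (min ε (τ / 4)) 1 := by rw [hη]; ring
  have hηε : 14 * η ≤ ε := by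
    rw [hη14]
    exact (min_le_left _ _).trans (min_le_left _ _)
  have hητ : 14 * η ≤ τ / 4 := by
    rw [hη14]
    exact (min_le_left _ _).trans (min_le_right _ _)
  have hη1 : 14 * η ≤ 1 := by
    rw [hη14]
    exact min_le_right _ _
  obtain ⟨κ, hκ, hcrit⟩ := crit_scaled η hη0 (by linarith)
  refine ⟨κ, hκ, fun C => ?_⟩
  have hev : ∀ᶠ Z : ℝ in atTop, ∀ (μ : Measure ℝ) [IsProbabilityMeasure μ],
      (∀ ξ : ℝ, 1 ≤ |ξ| → ‖∫ x, e (ξ * x) ∂μ‖ ≤ C * |ξ| ^ (-τ)) →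
      ∀ Y : ℝ, (∀ᵐ x ∂μ, Z ^ ε ≤ Y + Z * x) →
        Z ^ (-ε) ≤ μ.real {x | ∀ q : ℕ, q.Prime → κ * ff Z < |(q : ℝ) - (Y + Z * x)|} := by
    filter_upwards [hcrit, eventually_ge_atTop (1 : ℝ),
      (tendsto_rpow_atTop hη0).eventually_ge_atTop 16,
      (tendsto_rpow_atTop (show 0 < τ / 4 by positivity)).eventually_ge_atTop C]
      with Z hcr hZ1 hZ16 hZC
    intro μ _ hμ Y hY
    have hZ0 : 0 < Z := by linarith
    by_contra hcon
    rw [not_le] at hcon
    set B : Set ℝ := {x | ∀ q : ℕ, q.Prime → κ * ff Z < |(q : ℝ) - (Y + Z * x)|} with hB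
    have hBm : MeasurableSet B := by
      have : B = ⋂ q : ℕ, {x | q.Prime → κ * ff Z < |(q : ℝ) - (Y + Z * x)|} := by
        ext x
        simp [hB]
      rw [this]
      refine MeasurableSet.iInter fun q => ?_
      by_cases hq : q.Prime
      · have : {x : ℝ | q.Prime → κ * ff Z < |(q : ℝ) - (Y + Z * x)|} =
            {x | κ * ff Z < |(q : ℝ) - (Y + Z * x)|} := by
          ext x
          simp [hq]
        rw [this]
        exact (isOpen_lt continuous_const (by fun_prop)).measurableSet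
      · have : {x : ℝ | q.Prime → κ * ff Z < |(q : ℝ) - (Y + Z * x)|} = Set.univ := by
          ext x
          simp [hq]
        rw [this]
        exact MeasurableSet.univ
    set A : Set ℝ := {x | Z ^ ε ≤ Y + Z * x} with hA
    have hAm : MeasurableSet A := (isClosed_le continuous_const (by fun_prop)).measurableSet
    have hA0 : μ.real Aᶜ = 0 := by
      rw [measureReal_def]
      have : μ Aᶜ = 0 := hY
      rw [this]
      rfl
    set E : Set ℝ := Bᶜ ∩ A with hE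
    have hEm : MeasurableSet E := hBm.compl.inter hAm
    have hEc : μ.real Eᶜ ≤ Z ^ (-ε) := by
      have e1 : Eᶜ = B ∪ Aᶜ := by
        rw [hE, Set.compl_inter, compl_compl]
      rw [e1]
      refine (measureReal_union_le _ _).trans ?_
      rw [hA0, add_zero]
      exact hcon.le
    have hZη : (0 : ℝ) < Z ^ η := by positivity
    have hδ : Z ^ (-ε) ≤ Z ^ (-(14 * η)) := Real.rpow_le_rpow_of_exponent_le hZ1 (by linarith)
    have h14 : Z ^ (-(14 * η)) ≤ (1 / 16) * Z ^ (-(13 * η)) := by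
      have e1 : Z ^ (-(14 * η)) = Z ^ (-η) * Z ^ (-(13 * η)) := by
        rw [← Real.rpow_add hZ0]
        ring_nf
      rw [e1]
      apply mul_le_mul_of_nonneg_right _ (by positivity)
      rw [Real.rpow_neg hZ0.le, one_div]
      exact inv_anti₀ (by norm_num) hZ16
    have h13 : Z ^ (-(13 * η)) ≤ 1 := Real.rpow_le_one_of_one_le_of_nonpos hZ1 (by linarith)
    -- the frequencies
    set T : Finset (ℕ × ℕ) := Finset.Icc 1 ⌊Z ^ η⌋₊ ×ˢ Finset.Icc 1 ⌊Z ^ (4 * η)⌋₊ with hT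
    have hTcard : (T.card : ℝ) ≤ Z ^ (5 * η) := by
      rw [hT, card_product, Nat.card_Icc, Nat.card_Icc, Nat.add_sub_cancel, Nat.add_sub_cancel]
      push_cast
      calc (⌊Z ^ η⌋₊ : ℝ) * ⌊Z ^ (4 * η)⌋₊ ≤ Z ^ η * Z ^ (4 * η) := by
            gcongr
            · exact Nat.floor_le (by positivity)
            · exact Nat.floor_le (by positivity)
        _ = Z ^ (5 * η) := by
            rw [← Real.rpow_add hZ0]
            ring_nf
    have ht : ∀ i ∈ T, ‖∫ x, e (((i.2 : ℝ) / i.1 * Z) * x) ∂μ‖ ≤ Z ^ (-(14 * η)) := by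
      intro i hi
      rw [hT, mem_product, Finset.mem_Icc, Finset.mem_Icc] at hi
      obtain ⟨⟨hq1, hq2⟩, hh1, hh2⟩ := hi
      have hq0 : (0 : ℝ) < i.1 := by exact_mod_cast hq1
      have hqZ : (i.1 : ℝ) ≤ Z ^ η := (Nat.cast_le.mpr hq2).trans (Nat.floor_le hZη.le)
      have hh : (1 : ℝ) ≤ i.2 := by exact_mod_cast hh1
      have h1 : Z ^ (1 - η) ≤ (i.2 : ℝ) / i.1 * Z := by
        rw [div_mul_eq_mul_div, le_div_iff₀ hq0]
        calc Z ^ (1 - η) * i.1 ≤ Z ^ (1 - η) * Z ^ η := by gcongr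
          _ = 1 * Z := by
              rw [← Real.rpow_add hZ0, sub_add_cancel, Real.rpow_one, one_mul]
          _ ≤ i.2 * Z := by gcongr
      have h0 : 1 ≤ Z ^ (1 - η) := Real.one_le_rpow hZ1 (by linarith)
      have h2 : (i.2 : ℝ) / i.1 * Z = |(i.2 : ℝ) / i.1 * Z| := (abs_of_pos (by linarith)).symm
      refine (hμ _ (by rw [← h2]; linarith)).trans ?_
      rw [← h2]
      calc C * ((i.2 : ℝ) / i.1 * Z) ^ (-τ) ≤ Z ^ (τ / 4) * (Z ^ (1 - η)) ^ (-τ) := by
            gcongr ?_ * ?_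
            exact Real.rpow_le_rpow_of_nonpos (by positivity) h1 (by linarith)
        _ = Z ^ (τ / 4 + (1 - η) * -τ) := by
            rw [← Real.rpow_mul hZ0.le, ← Real.rpow_add hZ0]
        _ ≤ Z ^ (-(14 * η)) := by
            apply Real.rpow_le_rpow_of_exponent_le hZ1
            nlinarith
    set n : ℕ := ⌈Z ^ (14 * η)⌉₊ with hn
    have hnZ : Z ^ (14 * η) ≤ n := Nat.le_ceil _
    have hZ14 : 0 < Z ^ (14 * η) := by positivity
    have hn0 : (0 : ℝ) < n := by linarith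
    have hn1 : 1 ≤ n := by exact_mod_cast hn0
    obtain ⟨x, hx, hΦ⟩ := greedy μ E hEm (Z ^ (-(14 * η))) (Z ^ (-(14 * η))) (hEc.trans hδ)
      (by linarith) T (fun i => (i.2 : ℝ) / i.1 * Z) ht (by positivity) n
    have hΦ2 : ∑ i ∈ T, ‖∑ k ∈ range n, e (((i.2 : ℝ) / i.1 * Z) * x k)‖ ^ 2 ≤
        (n * Z ^ (-(4 * η))) ^ 2 := by
      refine hΦ.trans ?_
      have e1 : (n : ℝ) ≤ (n : ℝ) ^ 2 * ((1 / 16) * Z ^ (-(13 * η))) := by
        have : (1 : ℝ) ≤ n * Z ^ (-(14 * η)) := by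
          calc (1 : ℝ) = Z ^ (14 * η) * Z ^ (-(14 * η)) := by
                rw [← Real.rpow_add hZ0, add_neg_cancel, Real.rpow_zero]
            _ ≤ _ := by gcongr
        calc (n : ℝ) = n * 1 := by ring
          _ ≤ n * (n * Z ^ (-(14 * η))) := by gcongr
          _ ≤ n * (n * ((1 / 16) * Z ^ (-(13 * η)))) := by gcongr
          _ = _ := by ring
      calc (T.card : ℝ) * (n + 2 * (n : ℝ) ^ 2 * (Z ^ (-(14 * η)) + Z ^ (-(14 * η)))) ≤
          Z ^ (5 * η) * ((n : ℝ) ^ 2 * ((1 / 16) * Z ^ (-(13 * η))) +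
            2 * (n : ℝ) ^ 2 * ((1 / 16) * Z ^ (-(13 * η)) + (1 / 16) * Z ^ (-(13 * η)))) := by
            gcongr
        _ = (5 / 16) * ((n : ℝ) ^ 2 * (Z ^ (5 * η) * Z ^ (-(13 * η)))) := by ring
        _ = (5 / 16) * ((n : ℝ) ^ 2 * Z ^ (-(8 * η))) := by
            rw [← Real.rpow_add hZ0]
            ring_nf
        _ ≤ 1 * ((n : ℝ) ^ 2 * Z ^ (-(8 * η))) := by gcongr; norm_num
        _ = (n * Z ^ (-(4 * η))) ^ 2 := by
            rw [mul_pow, ← Real.rpow_natCast (Z ^ (-(4 * η))), ← Real.rpow_mul hZ0.le, one_mul]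
            congr 2
            push_cast
            ring
    obtain ⟨k, hk, hq⟩ := hcr ℕ (range n) (fun k => Y + Z * x k)
      (by rw [Finset.nonempty_range_iff]; omega) (by
        intro k hk
        rw [mem_range] at hk
        have h1 : Z ^ ε ≤ Y + Z * x k := (hx k hk).2
        exact (Real.rpow_le_rpow_of_exponent_le hZ1 (by linarith)).trans h1) (by
        intro q h hq hqX hh hhX
        have hmem : ((q, h) : ℕ × ℕ) ∈ T := by
          rw [hT, mem_product, Finset.mem_Icc, Finset.mem_Icc]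
          exact ⟨⟨hq, Nat.le_floor hqX⟩, hh, Nat.le_floor hhX⟩
        have h1 : ‖∑ k ∈ range n, e (((h : ℝ) / q * Z) * x k)‖ ^ 2 ≤ (n * Z ^ (-(4 * η))) ^ 2 :=
          (single_le_sum (f := fun i : ℕ × ℕ =>
            ‖∑ k ∈ range n, e (((i.2 : ℝ) / i.1 * Z) * x k)‖ ^ 2)
            (fun i _ => by positivity) hmem).trans hΦ2
        have h2 : ‖∑ k ∈ range n, e (((h : ℝ) / q * Z) * x k)‖ ≤ n * Z ^ (-(4 * η)) :=
          (pow_le_pow_iff_left₀ (norm_nonneg _) (by positivity) (by norm_num)).mp h1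
        have h3 : ∑ k ∈ range n, e ((h : ℝ) / q * (Y + Z * x k)) =
            e ((h : ℝ) / q * Y) * ∑ k ∈ range n, e (((h : ℝ) / q * Z) * x k) := by
          rw [mul_sum]
          refine sum_congr rfl fun k _ => ?_
          rw [← e_add]
          congr 1
          ring
        rw [h3, norm_mul, norm_e, one_mul, card_range]
        exact h2)
    rw [mem_range] at hk
    exact (hx k hk).1 hq
  obtain ⟨Z₀, hZ₀⟩ := eventually_atTop.mp hev
  exact ⟨Z₀, fun μ _ hμ Z hZ Y hY => hZ₀ Z hZ μ hμ Y hY⟩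

end Pool.Agent.TH668.Met
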