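import Pool.Agent.TH668.Met.Vdc

set_option autoImplicit false

/-! A metric theorem for one-parameter families of sequences. -/

namespace Pool.Agent.TH668.Met

open Finset Filter MeasureTheory
open Pool.Agent.TH915.PW
open Pool.Agent.H469R2.NK (e norm_e e_add conj_e)
open Pool.Agent.W147.PS (ff ev_pow)

/-- the family of functions: twice differentiable in the parameter, the differences of the
derivatives of consecutive members are bounded below and increase -/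
structure Fam (u v ρ : ℝ) (n₀ : ℕ) (F F' F'' : ℕ → ℝ → ℝ) : Prop where
  d1 : ∀ n x, HasDerivAt (F n) (F' n x) x
  d2 : ∀ n x, HasDerivAt (F' n) (F'' n x) x
  co : ∀ n, Continuous (F'' n)
  lo : ∀ n, n₀ ≤ n → ∀ x ∈ Set.Icc u v, (n : ℝ) ^ (ρ - 1) ≤ F' (n + 1) x - F' n x
  mo : ∀ n, n₀ ≤ n → ∀ x ∈ Set.Icc u v, 0 ≤ F'' (n + 1) x - F'' n x

lemma Fam.far {u v ρ : ℝ} {n₀ : ℕ} {F F' F'' : ℕ → ℝ → ℝ} (h : Fam u v ρ n₀ F F' F'')
    (hρ1 : ρ ≤ 1) (N : ℕ) (hN : 1 ≤ N) (hn₀ : n₀ ≤ N) (n k : ℕ) (hn : N ≤ n)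
    (hk : n + k ≤ 2 * N) (x : ℝ) (hx : x ∈ Set.Icc u v) :
    k * (2 * N : ℝ) ^ (ρ - 1) ≤ F' (n + k) x - F' n x ∧ 0 ≤ F'' (n + k) x - F'' n x := by
  induction k with
  | zero => simp
  | succ k ih =>
    obtain ⟨ih1, ih2⟩ := ih (by omega)
    have h2 := h.lo (n + k) (by omega) x hx
    have h5 := h.mo (n + k) (by omega) x hx
    have h3 : (2 * N : ℝ) ^ (ρ - 1) ≤ ((n + k : ℕ) : ℝ) ^ (ρ - 1) := by
      apply Real.rpow_le_rpow_of_nonpos
      · have : 0 < n + k := by omega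
        exact_mod_cast this
      · have : n + k ≤ 2 * N := by omega
        exact_mod_cast this
      · linarith
    rw [show n + (k + 1) = n + k + 1 by ring]
    push_cast
    constructor <;> linarith

lemma sq_expand_gen (s : Finset ℕ) (F : ℕ → ℝ → ℝ) (θ x : ℝ) :
    ((‖∑ n ∈ s, e (θ * F n x)‖ ^ 2 : ℝ) : ℂ) =
      ∑ n ∈ s, ∑ m ∈ s, e (θ * (F n x - F m x)) := by
  push_cast
  rw [← Complex.mul_conj', map_sum, sum_mul_sum]
  refine sum_congr rfl fun n _ => sum_congr rfl fun m _ => ?_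
  rw [conj_e, ← e_add]
  congr 1
  ring

lemma mean_sq_gen (μ : Measure ℝ) [IsFiniteMeasure μ] (s : Finset ℕ) (F : ℕ → ℝ → ℝ)
    (hF : ∀ n, Continuous (F n)) (θ : ℝ) :
    ∫ x, ‖∑ n ∈ s, e (θ * F n x)‖ ^ 2 ∂μ ≤
      ∑ n ∈ s, ∑ m ∈ s, ‖∫ x, e (θ * (F n x - F m x)) ∂μ‖ := by
  have hint : ∀ n m, Integrable (fun x => e (θ * (F n x - F m x))) μ := by
    intro n m
    refine Integrable.of_bound (Continuous.aestronglyMeasurable ?_) 1 ?_
    · exact continuous_e.comp (continuous_const.mul ((hF n).sub (hF m)))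
    · exact Eventually.of_forall fun x => (norm_e _).le
  have h1 : ((∫ x, ‖∑ n ∈ s, e (θ * F n x)‖ ^ 2 ∂μ : ℝ) : ℂ) =
      ∑ n ∈ s, ∑ m ∈ s, ∫ x, e (θ * (F n x - F m x)) ∂μ := by
    rw [← integral_complex_ofReal]
    simp_rw [sq_expand_gen]
    rw [integral_finsetSum _ fun n _ => integrable_finsetSum _ fun m _ => hint n m]
    refine sum_congr rfl fun n _ => ?_
    rw [integral_finsetSum _ fun m _ => hint n m]
  calc ∫ x, ‖∑ n ∈ s, e (θ * F n x)‖ ^ 2 ∂μ =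
      ‖((∫ x, ‖∑ n ∈ s, e (θ * F n x)‖ ^ 2 ∂μ : ℝ) : ℂ)‖ := by
        rw [Complex.norm_real, Real.norm_of_nonneg (integral_nonneg fun x => by positivity)]
    _ ≤ _ := by
        rw [h1]
        exact (norm_sum_le _ _).trans (sum_le_sum fun n _ => norm_sum_le _ _)

/-- mean square of the exponential sum over a dyadic block -/
lemma block_gen (u v ρ : ℝ) (huv : u ≤ v) (n₀ : ℕ) (F F' F'' : ℕ → ℝ → ℝ)
    (hF : Fam u v ρ n₀ F F' F'') (hρ : 0 < ρ) (hρ1 : ρ ≤ 1) (η : ℝ) (hη : η ≤ ρ / 8) :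
    ∀ᶠ N : ℕ in atTop, ∀ θ : ℝ, (N : ℝ) ^ (-η) ≤ θ →
      ∫ x, ‖∑ n ∈ Finset.Ioc N (2 * N), e (θ * F n x)‖ ^ 2 ∂(volume.restrict (Set.Ioc u v)) ≤
        (4 * (v - u) + 1) * (N : ℝ) ^ (2 - ρ / 4) := by
  have hlim : Tendsto (fun N : ℕ => (N : ℝ) ^ (ρ / 8)) atTop atTop :=
    (tendsto_rpow_atTop (by linarith)).comp tendsto_natCast_atTop_atTop
  filter_upwards [hlim.eventually_ge_atTop 2, eventually_ge_atTop n₀, eventually_ge_atTop 1]
    with N hN2 hNn hN1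
  intro θ hθ
  have hNr : (1 : ℝ) ≤ N := by exact_mod_cast hN1
  have hN0 : (0 : ℝ) < N := by linarith
  have huv0 : 0 ≤ v - u := by linarith
  set H : ℕ := ⌈(N : ℝ) ^ (1 - ρ / 2)⌉₊ with hH
  have hHlow : (N : ℝ) ^ (1 - ρ / 2) ≤ H := Nat.le_ceil _
  have hpow1 : (1 : ℝ) ≤ (N : ℝ) ^ (1 - ρ / 2) := Real.one_le_rpow hNr (by linarith)
  have hHup : (H : ℝ) ≤ 2 * (N : ℝ) ^ (1 - ρ / 2) := by
    have := Nat.ceil_lt_add_one (show (0 : ℝ) ≤ (N : ℝ) ^ (1 - ρ / 2) by positivity)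
    rw [← hH] at this
    linarith
  have hH1 : 1 ≤ H := by
    have : (1 : ℝ) ≤ H := hpow1.trans hHlow
    exact_mod_cast this
  have hθ0 : 0 < θ := lt_of_lt_of_le (by positivity) hθ
  set T : ℝ := (N : ℝ) ^ (ρ / 4) with hT
  have hT1 : 1 ≤ T := Real.one_le_rpow hNr (by linarith)
  have hT0 : 0 < T := by linarith
  have hcont : ∀ n, Continuous (F n) := fun n =>
    continuous_iff_continuousAt.2 fun x => (hF.d1 n x).continuousAt
  -- far pairs
  have hkey : ∀ n m : ℕ, n ∈ Finset.Ioc N (2 * N) → m ∈ Finset.Ioc N (2 * N) → n + H ≤ m →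
      ‖∫ x, e (θ * (F m x - F n x)) ∂(volume.restrict (Set.Ioc u v))‖ ≤ 1 / T := by
    intro n m hn hm hnm
    rw [Finset.mem_Ioc] at hn hm
    obtain ⟨k, rfl⟩ := Nat.exists_eq_add_of_le (show n ≤ m by omega)
    have hk : (H : ℝ) ≤ k := by
      have : H ≤ k := by omega
      exact_mod_cast this
    have h2 : (2 : ℝ)⁻¹ * (N : ℝ) ^ (ρ - 1) ≤ (2 * N : ℝ) ^ (ρ - 1) := by
      rw [Real.mul_rpow (by norm_num) hN0.le]
      apply mul_le_mul_of_nonneg_right _ (by positivity)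
      rw [← Real.rpow_neg_one]
      exact Real.rpow_le_rpow_of_exponent_le (by norm_num) (by linarith)
    have hT2 : T ≤ θ * (k * (2 * N : ℝ) ^ (ρ - 1)) := by
      calc T = (N : ℝ) ^ (ρ / 4) := rfl
        _ = 2 * (2⁻¹ * (N : ℝ) ^ (ρ / 4)) := by ring
        _ ≤ (N : ℝ) ^ (ρ / 8) * (2⁻¹ * (N : ℝ) ^ (ρ / 4)) := by gcongr
        _ = 2⁻¹ * (N : ℝ) ^ (-(ρ / 8) + (1 - ρ / 2) + (ρ - 1)) := by
            rw [show -(ρ / 8) + (1 - ρ / 2) + (ρ - 1) = ρ / 8 + ρ / 4 by ring, Real.rpow_add hN0]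
            ring
        _ ≤ 2⁻¹ * (N : ℝ) ^ (-η + (1 - ρ / 2) + (ρ - 1)) := by
            gcongr
        _ = (N : ℝ) ^ (-η) * ((N : ℝ) ^ (1 - ρ / 2) * (2⁻¹ * (N : ℝ) ^ (ρ - 1))) := by
            rw [Real.rpow_add hN0, Real.rpow_add hN0]
            ring
        _ ≤ θ * (k * (2 * N : ℝ) ^ (ρ - 1)) := by
            gcongr
            exact hHlow.trans hk
    rw [← intervalIntegral.integral_of_le huv]
    apply vdc u v T huv (fun x => θ * (F (n + k) x - F n x))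
      (fun x => θ * (F' (n + k) x - F' n x)) (fun x => θ * (F'' (n + k) x - F'' n x))
      (fun x => ((hF.d1 _ x).sub (hF.d1 _ x)).const_mul θ)
      (fun x => ((hF.d2 _ x).sub (hF.d2 _ x)).const_mul θ)
      (continuous_const.mul ((hF.co _).sub (hF.co _))) hT0
    · intro x hx
      have h3 := (hF.far hρ1 N hN1 hNn n k (by omega) hm.2 x hx).1
      refine hT2.trans ?_
      gcongr
    · intro x hx
      have h3 := (hF.far hρ1 N hN1 hNn n k (by omega) hm.2 x hx).2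
      positivity
  have hcard : ((Finset.Ioc N (2 * N)).card : ℝ) = N := by
    rw [Nat.card_Ioc]
    congr 1
    omega
  have hvol : (volume.restrict (Set.Ioc u v)).real Set.univ = v - u := by
    rw [measureReal_restrict_apply_univ, measureReal_def, Real.volume_Ioc,
      ENNReal.toReal_ofReal huv0]
  calc ∫ x, ‖∑ n ∈ Finset.Ioc N (2 * N), e (θ * F n x)‖ ^ 2 ∂(volume.restrict (Set.Ioc u v)) ≤
      ∑ n ∈ Finset.Ioc N (2 * N), ∑ m ∈ Finset.Ioc N (2 * N),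
        ‖∫ x, e (θ * (F n x - F m x)) ∂(volume.restrict (Set.Ioc u v))‖ :=
        mean_sq_gen _ _ F hcont θ
    _ ≤ (Finset.Ioc N (2 * N)).card * (2 * H) * (v - u) +
        ((Finset.Ioc N (2 * N)).card : ℝ) ^ 2 * (1 / T) := by
        apply pair_sum _ _ _ _ H hH1
        · intro n m
          refine (norm_integral_le_integral_norm _).trans (le_of_eq ?_)
          simp only [norm_e]
          rw [integral_const, smul_eq_mul, mul_one, hvol]
        · intro n hn m hm hnm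
          rcases hnm with h | h
          · refine le_trans (le_of_eq ?_) (hkey n m hn hm h)
            rw [← Complex.norm_conj, ← integral_conj]
            congr 2
            ext x
            rw [conj_e]
            congr 1
            ring
          · exact hkey m n hm hn h
        · positivity
        · exact huv0
    _ ≤ 4 * (v - u) * (N : ℝ) ^ (2 - ρ / 2) + (N : ℝ) ^ (2 - ρ / 4) := by
        rw [hcard]
        apply add_le_add
        · calc (N : ℝ) * (2 * H) * (v - u) ≤ N * (2 * (2 * (N : ℝ) ^ (1 - ρ / 2))) * (v - u) := by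
                gcongr
            _ = 4 * (v - u) * ((N : ℝ) ^ (1 : ℝ) * (N : ℝ) ^ (1 - ρ / 2)) := by
                rw [Real.rpow_one]; ring
            _ = 4 * (v - u) * (N : ℝ) ^ (2 - ρ / 2) := by
                rw [← Real.rpow_add hN0]; ring_nf
        · apply le_of_eq
          rw [one_div, hT, ← Real.rpow_neg hN0.le, ← Real.rpow_natCast, ← Real.rpow_add hN0]
          congr 1
    _ ≤ 4 * (v - u) * (N : ℝ) ^ (2 - ρ / 4) + (N : ℝ) ^ (2 - ρ / 4) := by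
        have h7 : (N : ℝ) ^ (2 - ρ / 2) ≤ (N : ℝ) ^ (2 - ρ / 4) :=
          Real.rpow_le_rpow_of_exponent_le hNr (by linarith)
        have h8 : 0 ≤ 4 * (v - u) := by linarith
        have := mul_le_mul_of_nonneg_left h7 h8
        linarith
    _ = _ := by ring

set_option maxHeartbeats 4000000 in
theorem metric_gen (ρ ε : ℝ) (hρ : 0 < ρ) (hρ1 : ρ ≤ 1) (hε : 0 < ε) :
    ∃ κ : ℝ, 0 < κ ∧ ∀ (u v : ℝ), u ≤ v → ∀ (n₀ : ℕ) (F F' F'' : ℕ → ℝ → ℝ),
      Fam u v ρ n₀ F F' F'' →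
      ∀ᵐ α ∂(volume.restrict (Set.Ioc u v)), (∀ᶠ n : ℕ in atTop, (n : ℝ) ^ ε ≤ F n α) →
        ∀ᶠ M : ℝ in atTop, ∃ n : ℕ, M < n ∧ (n : ℝ) ≤ 4 * M ∧
          ∀ q : ℕ, q.Prime → κ * ff M < |(q : ℝ) - F n α| := by
  set ω : ℝ := ρ / 4 with hω
  have hω0 : 0 < ω := by positivity
  have hω1 : ω ≤ ρ / 2 := by linarith
  set η : ℝ := min (ω / 26) ε with hη
  have hη0 : 0 < η := lt_min (by positivity) hε
  have hη1 : η ≤ ω / 26 := min_le_left _ _
  have hηε : η ≤ ε := min_le_right _ _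
  obtain ⟨κ, hκ, hcrit⟩ := crit_scaled η hη0 (by linarith)
  refine ⟨κ, hκ, ?_⟩
  intro u v huv n₀ F F' F'' hF
  set μ : Measure ℝ := volume.restrict (Set.Ioc u v) with hμ
  set C : ℝ := 1 with hC1
  have hC : 0 ≤ C := zero_le_one
  obtain ⟨N₁, hN₁⟩ := eventually_atTop.mp
    (block_gen u v ρ huv n₀ F F' F'' hF hρ hρ1 η (by linarith))
  set m₀ : ℝ := v - u with hm₀
  have hm₀0 : 0 ≤ m₀ := by linarith
  have hcont : ∀ n, Continuous (F n) := fun n =>
    continuous_iff_continuousAt.2 fun x => (hF.d1 n x).continuousAt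
  -- the functions
  set S : ℕ → ℕ → ℕ → ℝ → ℝ := fun N q h α =>
    ‖∑ n ∈ Finset.Ioc N (2 * N), e ((h : ℝ) / q * F n α)‖ ^ 2 with hS
  set G : ℕ → ℝ → ℝ := fun j α =>
    ∑ q ∈ Finset.Icc 1 ⌊((2 ^ j : ℕ) : ℝ) ^ η⌋₊, ∑ h ∈ Finset.Icc 1 ⌊((2 ^ j : ℕ) : ℝ) ^ (4 * η)⌋₊,
      S (2 ^ j) q h α * ((2 ^ j : ℕ) : ℝ) ^ (-(2 - 8 * η)) with hG
  have hScont : ∀ N q h, Continuous (S N q h) := by
    intro N q h
    simp only [hS]
    refine Continuous.pow (Continuous.norm ?_) 2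
    exact continuous_finsetSum _ fun n _ => continuous_e.comp (continuous_const.mul (hcont n))
  have hSbd : ∀ N q h α, ‖S N q h α‖ ≤ ((Finset.Ioc N (2 * N)).card : ℝ) ^ 2 := by
    intro N q h α
    simp only [hS]
    rw [norm_pow, norm_norm]
    refine pow_le_pow_left₀ (norm_nonneg _) ((norm_sum_le _ _).trans (le_of_eq ?_)) 2
    simp only [norm_e]
    rw [sum_const, nsmul_eq_mul, mul_one]
  have hSint : ∀ N q h, Integrable (S N q h) μ := fun N q h =>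
    Integrable.of_bound (hScont N q h).aestronglyMeasurable _
      (Eventually.of_forall fun α => hSbd N q h α)
  have hGint : ∀ j, Integrable (G j) μ := by
    intro j
    simp only [hG]
    exact integrable_finsetSum _ fun q _ => integrable_finsetSum _ fun h _ =>
      (hSint _ q h).mul_const _
  have hS0 : ∀ N q h α, 0 ≤ S N q h α := fun N q h α => by simp only [hS]; positivity
  have hG0 : ∀ j α, 0 ≤ G j α := fun j α =>
    sum_nonneg fun q _ => sum_nonneg fun h _ => mul_nonneg (hS0 _ q h α) (by positivity)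
  set r : ℝ := (2 : ℝ) ^ (-(ω / 2)) with hr
  have hr0 : 0 ≤ r := by positivity
  have hr1 : r < 1 := Real.rpow_lt_one_of_one_lt_of_neg (by norm_num) (by linarith)
  have hae := ae_ev μ G hGint hG0 (4 * m₀ + C) r (by positivity) hr0 hr1 N₁ (by
    intro j hj
    set N : ℕ := 2 ^ j with hN
    have hNj : N₁ ≤ N := hj.trans (Nat.lt_two_pow_self).le
    have hN1 : 1 ≤ N := Nat.one_le_two_pow
    have hNr : (1 : ℝ) ≤ N := by exact_mod_cast hN1
    have hN0 : (0 : ℝ) < N := by linarith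
    have h1 : ∀ q ∈ Finset.Icc 1 ⌊(N : ℝ) ^ η⌋₊, ∀ h ∈ Finset.Icc 1 ⌊(N : ℝ) ^ (4 * η)⌋₊,
        ∫ α, S N q h α * (N : ℝ) ^ (-(2 - 8 * η)) ∂μ ≤ (4 * m₀ + C) * (N : ℝ) ^ (8 * η - ω) := by
      intro q hq h hh
      rw [Finset.mem_Icc] at hq hh
      have hq1 : (q : ℝ) ≤ (N : ℝ) ^ η :=
        (Nat.cast_le.mpr hq.2).trans (Nat.floor_le (by positivity))
      have hq0 : (0 : ℝ) < q := by exact_mod_cast hq.1
      have hh1 : (1 : ℝ) ≤ h := by exact_mod_cast hh.1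
      have hθ : (N : ℝ) ^ (-η) ≤ (h : ℝ) / q := by
        rw [Real.rpow_neg hN0.le]
        calc ((N : ℝ) ^ η)⁻¹ ≤ (q : ℝ)⁻¹ := inv_anti₀ hq0 hq1
          _ = 1 / q := by rw [one_div]
          _ ≤ _ := by gcongr
      rw [integral_mul_const]
      calc (∫ α, S N q h α ∂μ) * (N : ℝ) ^ (-(2 - 8 * η)) ≤
          ((4 * m₀ + C) * (N : ℝ) ^ (2 - ω)) * (N : ℝ) ^ (-(2 - 8 * η)) := by
            gcongr
            exact hN₁ N hNj _ hθ
        _ = (4 * m₀ + C) * ((N : ℝ) ^ (2 - ω) * (N : ℝ) ^ (-(2 - 8 * η))) := by ring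
        _ = _ := by
            rw [← Real.rpow_add hN0]
            ring_nf
    have h2 : ∫ α, G j α ∂μ ≤ (N : ℝ) ^ η * ((N : ℝ) ^ (4 * η) *
        ((4 * m₀ + C) * (N : ℝ) ^ (8 * η - ω))) := by
      have e1 : ∫ α, G j α ∂μ = ∑ q ∈ Finset.Icc 1 ⌊(N : ℝ) ^ η⌋₊,
          ∑ h ∈ Finset.Icc 1 ⌊(N : ℝ) ^ (4 * η)⌋₊, ∫ α, S N q h α * (N : ℝ) ^ (-(2 - 8 * η)) ∂μ := by
        simp only [hG]
        rw [integral_finsetSum _ fun q _ => integrable_finsetSum _ fun h _ =>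
          (hSint _ q h).mul_const _]
        refine sum_congr rfl fun q _ => ?_
        rw [integral_finsetSum _ fun h _ => (hSint _ q h).mul_const _]
      rw [e1]
      have hcardh : ∀ x : ℝ, 0 ≤ x → ((Finset.Icc 1 ⌊x⌋₊).card : ℝ) ≤ x := by
        intro x hx
        rw [Nat.card_Icc, Nat.add_sub_cancel]
        exact Nat.floor_le hx
      calc ∑ q ∈ Finset.Icc 1 ⌊(N : ℝ) ^ η⌋₊, ∑ h ∈ Finset.Icc 1 ⌊(N : ℝ) ^ (4 * η)⌋₊,
          ∫ α, S N q h α * (N : ℝ) ^ (-(2 - 8 * η)) ∂μ ≤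
          ∑ q ∈ Finset.Icc 1 ⌊(N : ℝ) ^ η⌋₊, ((N : ℝ) ^ (4 * η) *
            ((4 * m₀ + C) * (N : ℝ) ^ (8 * η - ω))) := by
            refine sum_le_sum fun q hq => ?_
            refine (sum_le_sum fun h hh => h1 q hq h hh).trans ?_
            rw [sum_const, nsmul_eq_mul]
            gcongr
            exact hcardh _ (by positivity)
        _ ≤ _ := by
            rw [sum_const, nsmul_eq_mul]
            gcongr
            exact hcardh _ (by positivity)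
    refine h2.trans ?_
    calc (N : ℝ) ^ η * ((N : ℝ) ^ (4 * η) * ((4 * m₀ + C) * (N : ℝ) ^ (8 * η - ω))) =
        (4 * m₀ + C) * ((N : ℝ) ^ η * (N : ℝ) ^ (4 * η) * (N : ℝ) ^ (8 * η - ω)) := by ring
      _ = (4 * m₀ + C) * (N : ℝ) ^ (13 * η - ω) := by
          rw [← Real.rpow_add hN0, ← Real.rpow_add hN0]
          ring_nf
      _ ≤ (4 * m₀ + C) * (N : ℝ) ^ (-(ω / 2)) := by
          gcongr
          linarith
      _ = (4 * m₀ + C) * r ^ j := by
          rw [hN, hr, ← Real.rpow_natCast ((2 : ℝ) ^ (-(ω / 2))), ← Real.rpow_mul (by norm_num)]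
          push_cast
          rw [← Real.rpow_natCast, ← Real.rpow_mul (by norm_num)]
          ring_nf)
  filter_upwards [hae] with α hα hpos
  obtain ⟨j₁, hj₁⟩ := eventually_atTop.mp hα
  obtain ⟨n₁, hn₁⟩ := eventually_atTop.mp hpos
  filter_upwards [hcrit, eventually_ge_atTop (1 : ℝ), eventually_ge_atTop ((2 : ℝ) ^ j₁),
    eventually_ge_atTop (n₁ : ℝ)] with M hM hM1 hMj hMn
  have hM0 : 0 < M := by linarith
  -- choose the power of two
  obtain ⟨j, hjM, hjM2⟩ : ∃ j : ℕ, M ≤ (2 : ℝ) ^ j ∧ (2 : ℝ) ^ j ≤ 2 * M := by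
    obtain ⟨i, hi1, hi2⟩ := exists_nat_pow_near hM1 (by norm_num : (1 : ℝ) < 2)
    refine ⟨i + 1, hi2.le, ?_⟩
    rw [pow_succ]
    linarith
  have hj : j₁ ≤ j := by
    have h1 : (2 : ℝ) ^ j₁ ≤ 2 ^ j := hMj.trans hjM
    exact (pow_le_pow_iff_right₀ (by norm_num)).mp h1
  set N : ℕ := 2 ^ j with hN
  have hNc : (N : ℝ) = 2 ^ j := by rw [hN]; push_cast; ring
  have hN1 : 1 ≤ N := Nat.one_le_two_pow
  have hNr : (1 : ℝ) ≤ N := by exact_mod_cast hN1
  have hN0 : (0 : ℝ) < N := by linarith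
  have hMN : M ≤ N := by rw [hNc]; exact hjM
  have hNM : (N : ℝ) ≤ 2 * M := by rw [hNc]; exact hjM2
  have hcard : ((Finset.Ioc N (2 * N)).card : ℝ) = N := by
    rw [Nat.card_Ioc]
    congr 1
    omega
  obtain ⟨n, hn, hq⟩ := hM ℕ (Finset.Ioc N (2 * N)) (fun n => F n α)
    ⟨N + 1, by rw [Finset.mem_Ioc]; omega⟩ (by
      intro n hn
      rw [Finset.mem_Ioc] at hn
      have h1 : (N : ℝ) ≤ n := by exact_mod_cast hn.1.le
      have h2 : n₁ ≤ n := by
        have : (n₁ : ℝ) ≤ n := hMn.trans (hMN.trans h1)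
        exact_mod_cast this
      calc M ^ η ≤ M ^ ε := Real.rpow_le_rpow_of_exponent_le hM1 hηε
        _ ≤ (n : ℝ) ^ ε := Real.rpow_le_rpow hM0.le (hMN.trans h1) hε.le
        _ ≤ _ := hn₁ n h2) (by
      intro q h hq hqX hh hhX
      have h1 : S N q h α * (N : ℝ) ^ (-(2 - 8 * η)) ≤ 1 := by
        refine le_trans ?_ (hj₁ j hj)
        have hqm : q ∈ Finset.Icc 1 ⌊(N : ℝ) ^ η⌋₊ := by
          rw [Finset.mem_Icc]
          exact ⟨hq, Nat.le_floor (hqX.trans (Real.rpow_le_rpow hM0.le hMN hη0.le))⟩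
        have hhm : h ∈ Finset.Icc 1 ⌊(N : ℝ) ^ (4 * η)⌋₊ := by
          rw [Finset.mem_Icc]
          exact ⟨hh, Nat.le_floor (hhX.trans (Real.rpow_le_rpow hM0.le hMN (by linarith)))⟩
        have hnn : ∀ q h, 0 ≤ S N q h α * (N : ℝ) ^ (-(2 - 8 * η)) := fun q h =>
          mul_nonneg (hS0 _ q h α) (by positivity)
        calc S N q h α * (N : ℝ) ^ (-(2 - 8 * η)) ≤
            ∑ h ∈ Finset.Icc 1 ⌊(N : ℝ) ^ (4 * η)⌋₊, S N q h α * (N : ℝ) ^ (-(2 - 8 * η)) :=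
              single_le_sum (f := fun h => S N q h α * (N : ℝ) ^ (-(2 - 8 * η)))
                (fun h _ => hnn q h) hhm
          _ ≤ G j α := single_le_sum (f := fun q => ∑ h ∈ Finset.Icc 1 ⌊(N : ℝ) ^ (4 * η)⌋₊,
                S N q h α * (N : ℝ) ^ (-(2 - 8 * η)))
                (fun q _ => sum_nonneg fun h _ => hnn q h) hqm
      have h2 : S N q h α ≤ (N : ℝ) ^ (2 - 8 * η) := by
        rw [Real.rpow_neg hN0.le, ← div_eq_mul_inv, div_le_one (by positivity)] at h1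
        exact h1
      have h3 : (N : ℝ) ^ (2 - 8 * η) = ((N : ℝ) * (N : ℝ) ^ (-(4 * η))) ^ 2 := by
        have : (N : ℝ) * (N : ℝ) ^ (-(4 * η)) = (N : ℝ) ^ (1 - 4 * η) := by
          rw [show (1 : ℝ) - 4 * η = 1 + -(4 * η) by ring, Real.rpow_add hN0, Real.rpow_one]
        rw [this, ← Real.rpow_natCast, ← Real.rpow_mul hN0.le]
        congr 1
        push_cast
        ring
      rw [h3] at h2
      have h4 : ‖∑ n ∈ Finset.Ioc N (2 * N), e ((h : ℝ) / q * F n α)‖ ≤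
          (N : ℝ) * (N : ℝ) ^ (-(4 * η)) :=
        (pow_le_pow_iff_left₀ (norm_nonneg _) (by positivity) (by norm_num)).mp h2
      rw [hcard]
      refine h4.trans ?_
      apply mul_le_mul_of_nonneg_left _ hN0.le
      exact Real.rpow_le_rpow_of_nonpos hM0 hMN (by linarith))
  rw [Finset.mem_Ioc] at hn
  refine ⟨n, ?_, ?_, hq⟩
  · have : (N : ℝ) < n := by exact_mod_cast hn.1
    linarith
  · have : (n : ℝ) ≤ 2 * N := by exact_mod_cast hn.2
    linarith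

end Pool.Agent.TH668.Met
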