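import Pool.Agent.TH668.Met.Basic

set_option autoImplicit false

/-! Greedy choice of points with small exponential sums in the support of a measure. -/

namespace Pool.Agent.TH668.Met

open Finset Filter MeasureTheory
open Pool.Agent.H469R2.NK (e norm_e e_add conj_e)

lemma step_int (μ : Measure ℝ) [IsProbabilityMeasure μ] (E : Set ℝ) (hE : MeasurableSet E)
    (δ ϑ : ℝ) (hδ : μ.real Eᶜ ≤ δ) (t : ℝ) (ht : ‖∫ x, e (t * x) ∂μ‖ ≤ ϑ) (S : ℂ) :
    ∫ y in E, ‖S + e (t * y)‖ ^ 2 ∂μ ≤ μ.real E * (‖S‖ ^ 2 + 1) + 2 * (‖S‖ * (ϑ + δ)) := by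
  have h1 : ∀ y : ℝ, ‖S + e (t * y)‖ ^ 2 = (‖S‖ ^ 2 + 1) + 2 * (S * e ((-t) * y)).re := by
    intro y
    have e0 : e ((-t) * y) = (starRingEnd ℂ) (e (t * y)) := by
      rw [conj_e]
      congr 1
      ring
    rw [e0, ← Complex.normSq_eq_norm_sq, Complex.normSq_add, Complex.normSq_eq_norm_sq,
      Complex.normSq_eq_norm_sq, norm_e]
    ring
  have hi : Integrable (fun y => e ((-t) * y)) μ := integrable_e μ (-t)
  have hi2 : Integrable (fun y => S * e ((-t) * y)) (μ.restrict E) :=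
    (hi.const_mul S).mono_measure Measure.restrict_le_self
  have h2 : ‖∫ y, e ((-t) * y) ∂μ‖ ≤ ϑ := by
    have e1 : ∫ y, e ((-t) * y) ∂μ = (starRingEnd ℂ) (∫ y, e (t * y) ∂μ) := by
      rw [← integral_conj]
      congr 1
      ext y
      rw [conj_e]
      congr 1
      ring
    rw [e1, Complex.norm_conj]
    exact ht
  have h3 : ‖∫ y in Eᶜ, e ((-t) * y) ∂μ‖ ≤ δ := by
    refine (norm_integral_le_integral_norm _).trans (le_trans (le_of_eq ?_) hδ)
    simp only [norm_e]
    rw [integral_const, smul_eq_mul, mul_one, measureReal_restrict_apply_univ]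
  have h4 : ‖∫ y in E, e ((-t) * y) ∂μ‖ ≤ ϑ + δ := by
    have e2 := integral_add_compl hE hi
    have e3 : ∫ y in E, e ((-t) * y) ∂μ = (∫ y, e ((-t) * y) ∂μ) - ∫ y in Eᶜ, e ((-t) * y) ∂μ := by
      rw [← e2]
      ring
    rw [e3]
    exact (norm_sub_le _ _).trans (add_le_add h2 h3)
  simp_rw [h1]
  have hi3 : Integrable (fun y => 2 * (S * e ((-t) * y)).re) (μ.restrict E) :=
    (Complex.reCLM.integrable_comp hi2).const_mul 2
  rw [integral_add (integrable_const _) hi3,
    integral_const, measureReal_restrict_apply_univ, smul_eq_mul, integral_const_mul]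
  have h5 : ∫ y in E, (S * e ((-t) * y)).re ∂μ = (∫ y in E, S * e ((-t) * y) ∂μ).re :=
    Complex.reCLM.integral_comp_comm hi2
  rw [h5, integral_const_mul]
  have h6 : (S * ∫ y in E, e ((-t) * y) ∂μ).re ≤ ‖S‖ * (ϑ + δ) := by
    refine (Complex.re_le_norm _).trans ?_
    rw [norm_mul]
    exact mul_le_mul_of_nonneg_left h4 (norm_nonneg _)
  linarith

lemma greedy {ι : Type} (μ : Measure ℝ) [IsProbabilityMeasure μ] (E : Set ℝ)
    (hE : MeasurableSet E) (δ ϑ : ℝ) (hδ : μ.real Eᶜ ≤ δ) (hδ2 : δ ≤ 1 / 2) (T : Finset ι)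
    (t : ι → ℝ) (ht : ∀ i ∈ T, ‖∫ x, e (t i * x) ∂μ‖ ≤ ϑ) (hϑ : 0 ≤ ϑ) (n : ℕ) :
    ∃ x : ℕ → ℝ, (∀ k < n, x k ∈ E) ∧
      ∑ i ∈ T, ‖∑ k ∈ range n, e (t i * x k)‖ ^ 2 ≤
        T.card * (n + 2 * (n : ℝ) ^ 2 * (ϑ + δ)) := by
  have hδ0 : 0 ≤ δ := measureReal_nonneg.trans hδ
  have hEr : μ.real E = 1 - μ.real Eᶜ := by
    rw [probReal_compl_eq_one_sub hE]
    ring
  have hE2 : 1 / 2 ≤ μ.real E := by
    rw [hEr]
    linarith
  have hE0 : μ E ≠ 0 := by
    intro h
    have : μ.real E = 0 := by rw [measureReal_def, h]; rfl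
    linarith
  induction n with
  | zero => exact ⟨fun _ => 0, fun k hk => absurd hk (by omega), by simp⟩
  | succ n ih =>
    obtain ⟨x, hx, hΦ⟩ := ih
    set S : ι → ℂ := fun i => ∑ k ∈ range n, e (t i * x k) with hS
    have hSn : ∀ i, ‖S i‖ ≤ n := by
      intro i
      refine (norm_sum_le _ _).trans (le_of_eq ?_)
      simp only [norm_e]
      rw [sum_const, card_range, nsmul_eq_mul, mul_one]
    have hint : ∀ i, IntegrableOn (fun y => ‖S i + e (t i * y)‖ ^ 2) E μ := by
      intro i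
      refine Integrable.of_bound (Continuous.aestronglyMeasurable ?_) ((n + 1 : ℝ) ^ 2) ?_
      · refine Continuous.pow (Continuous.norm ?_) 2
        exact continuous_const.add (continuous_e.comp (continuous_const.mul continuous_id))
      · refine Eventually.of_forall fun y => ?_
        rw [norm_pow, norm_norm]
        refine pow_le_pow_left₀ (norm_nonneg _) ((norm_add_le _ _).trans ?_) 2
        rw [norm_e]
        have := hSn i
        linarith
    have hint2 : IntegrableOn (fun y => ∑ i ∈ T, ‖S i + e (t i * y)‖ ^ 2) E μ :=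
      integrable_finsetSum _ fun i _ => hint i
    obtain ⟨y, hyE, hy⟩ := exists_le_setAverage hE0 (measure_ne_top μ E) hint2
    refine ⟨fun k => if k < n then x k else y, ?_, ?_⟩
    · intro k hk
      by_cases h : k < n
      · simp only [h, if_true]
        exact hx k h
      · simp only [h, if_false]
        exact hyE
    · have e1 : ∀ i, ∑ k ∈ range (n + 1), e (t i * (if k < n then x k else y)) =
          S i + e (t i * y) := by
        intro i
        rw [sum_range_succ]
        congr 1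
        · refine sum_congr rfl fun k hk => ?_
          rw [mem_range] at hk
          rw [if_pos hk]
        · rw [if_neg (by omega)]
      simp only [e1]
      refine hy.trans ?_
      rw [setAverage_eq, smul_eq_mul, integral_finsetSum _ fun i _ => hint i]
      have h7 : ∑ i ∈ T, ∫ y in E, ‖S i + e (t i * y)‖ ^ 2 ∂μ ≤
          μ.real E * (∑ i ∈ T, ‖S i‖ ^ 2 + T.card) + T.card * (2 * (n * (ϑ + δ))) := by
        calc ∑ i ∈ T, ∫ y in E, ‖S i + e (t i * y)‖ ^ 2 ∂μ ≤
            ∑ i ∈ T, (μ.real E * (‖S i‖ ^ 2 + 1) + 2 * (n * (ϑ + δ))) := by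
              refine sum_le_sum fun i hi => (step_int μ E hE δ ϑ hδ (t i) (ht i hi) (S i)).trans ?_
              have := hSn i
              gcongr
          _ = _ := by
              rw [sum_add_distrib, ← mul_sum, sum_add_distrib, sum_const, sum_const, nsmul_eq_mul,
                nsmul_eq_mul, mul_one]
      have hEpos : 0 < μ.real E := by linarith
      have hc0 : (0 : ℝ) ≤ T.card := Nat.cast_nonneg _
      have hn0 : (0 : ℝ) ≤ n := Nat.cast_nonneg _
      calc (μ.real E)⁻¹ * ∑ i ∈ T, ∫ y in E, ‖S i + e (t i * y)‖ ^ 2 ∂μ ≤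
          (μ.real E)⁻¹ * (μ.real E * (∑ i ∈ T, ‖S i‖ ^ 2 + T.card) +
            T.card * (2 * (n * (ϑ + δ)))) := by gcongr
        _ = (∑ i ∈ T, ‖S i‖ ^ 2 + T.card) + (μ.real E)⁻¹ * (T.card * (2 * (n * (ϑ + δ)))) := by
            field_simp
        _ ≤ (∑ i ∈ T, ‖S i‖ ^ 2 + T.card) + 2 * (T.card * (2 * (n * (ϑ + δ)))) := by
            gcongr
            rw [inv_le_comm₀ hEpos (by norm_num)]
            linarith
        _ ≤ (T.card * (n + 2 * (n : ℝ) ^ 2 * (ϑ + δ)) + T.card) +
            2 * (T.card * (2 * (n * (ϑ + δ)))) := by gcongr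
        _ ≤ T.card * (((n + 1 : ℕ) : ℝ) + 2 * ((n + 1 : ℕ) : ℝ) ^ 2 * (ϑ + δ)) := by
            push_cast
            have : 0 ≤ (T.card : ℝ) * (ϑ + δ) := by positivity
            nlinarith

end Pool.Agent.TH668.Met
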