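import Pool.Agent.TH668.Met.Main

set_option autoImplicit false

/-! First derivative test for integrals and mean squares of one-parameter families. -/

namespace Pool.Agent.TH668.Met

open Finset Filter MeasureTheory
open Pool.Agent.H469R2.NK (e norm_e e_add conj_e)

lemma e_hasDeriv (φ : ℝ → ℝ) (d x : ℝ) (h : HasDerivAt φ d x) :
    HasDerivAt (fun x => e (φ x)) (e (φ x) * (2 * Real.pi * Complex.I * d)) x := by
  have h1 : HasDerivAt (fun x => ((2 * Real.pi * φ x : ℝ) : ℂ) * Complex.I)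
      (((2 * Real.pi * d : ℝ) : ℂ) * Complex.I) x :=
    ((h.const_mul (2 * Real.pi)).ofReal_comp).mul_const Complex.I
  have h2 := h1.cexp
  have e1 : e (φ x) * (2 * Real.pi * Complex.I * d) =
      Complex.exp (((2 * Real.pi * φ x : ℝ) : ℂ) * Complex.I) *
        (((2 * Real.pi * d : ℝ) : ℂ) * Complex.I) := by
    unfold e
    push_cast
    ring
  rw [e1]
  exact h2

/-- first derivative test -/
lemma vdc (u v lam : ℝ) (huv : u ≤ v) (φ φ' φ'' : ℝ → ℝ) (h1 : ∀ x, HasDerivAt φ (φ' x) x)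
    (h2 : ∀ x, HasDerivAt φ' (φ'' x) x) (hc : Continuous φ'') (hlam : 0 < lam)
    (hlow : ∀ x ∈ Set.Icc u v, lam ≤ φ' x) (hmono : ∀ x ∈ Set.Icc u v, 0 ≤ φ'' x) :
    ‖∫ x in u..v, e (φ x)‖ ≤ 1 / lam := by
  have hφc : Continuous φ := continuous_iff_continuousAt.2 fun x => (h1 x).continuousAt
  have hφ'c : Continuous φ' := continuous_iff_continuousAt.2 fun x => (h2 x).continuousAt
  have hIcc : Set.uIcc u v = Set.Icc u v := Set.uIcc_of_le huv
  have hne : ∀ x ∈ Set.Icc u v, φ' x ≠ 0 := fun x hx => by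
    have := hlow x hx
    linarith
  set w : ℂ := (2 * Real.pi * Complex.I)⁻¹ with hw
  have hpi : (2 * Real.pi * Complex.I : ℂ) ≠ 0 := Complex.two_pi_I_ne_zero
  have hwn : ‖w‖ = 1 / (2 * Real.pi) := by
    rw [hw, norm_inv, norm_mul, norm_mul, Complex.norm_I, mul_one, Complex.norm_real,
      Complex.norm_ofNat, Real.norm_eq_abs, abs_of_pos Real.pi_pos, one_div]
  -- the real part of the argument
  have hinv : ∀ x ∈ Set.Icc u v, HasDerivAt (fun x => (φ' x)⁻¹) (-(φ'' x) / (φ' x) ^ 2) x :=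
    fun x hx => (h2 x).inv (hne x hx)
  have hG : ∀ x ∈ Set.Icc u v, HasDerivAt (fun x => e (φ x) * w * (((φ' x)⁻¹ : ℝ) : ℂ))
      (e (φ x) + e (φ x) * w * ((-(φ'' x) / (φ' x) ^ 2 : ℝ) : ℂ)) x := by
    intro x hx
    have h3 := ((e_hasDeriv φ (φ' x) x (h1 x)).mul_const w).mul (hinv x hx).ofReal_comp
    have hx' : ((φ' x : ℝ) : ℂ) ≠ 0 := by exact_mod_cast hne x hx
    have e1 : e (φ x) + e (φ x) * w * ((-(φ'' x) / (φ' x) ^ 2 : ℝ) : ℂ) =
        e (φ x) * (2 * Real.pi * Complex.I * (φ' x)) * w * (((φ' x)⁻¹ : ℝ) : ℂ) +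
          e (φ x) * w * ((-(φ'' x) / (φ' x) ^ 2 : ℝ) : ℂ) := by
      congr 1
      rw [hw]
      push_cast
      field_simp
    rw [e1]
    exact h3
  have hcE : Continuous fun x => e (φ x) := continuous_e.comp hφc
  have hcR : ContinuousOn (fun x => (-(φ'' x) / (φ' x) ^ 2 : ℝ)) (Set.Icc u v) := by
    apply ContinuousOn.div hc.neg.continuousOn (hφ'c.pow 2).continuousOn
    intro x hx
    exact pow_ne_zero 2 (hne x hx)
  have hcR2 : ContinuousOn (fun x => e (φ x) * w * ((-(φ'' x) / (φ' x) ^ 2 : ℝ) : ℂ))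
      (Set.Icc u v) :=
    (hcE.mul continuous_const).continuousOn.mul (Complex.continuous_ofReal.comp_continuousOn hcR)
  have hi1 : IntervalIntegrable (fun x => e (φ x)) volume u v := hcE.intervalIntegrable u v
  have hi2 : IntervalIntegrable (fun x => e (φ x) * w * ((-(φ'' x) / (φ' x) ^ 2 : ℝ) : ℂ))
      volume u v := by
    apply ContinuousOn.intervalIntegrable
    rwa [hIcc]
  have hi3 : IntervalIntegrable (fun x => (-(φ'' x) / (φ' x) ^ 2 : ℝ)) volume u v := by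
    apply ContinuousOn.intervalIntegrable
    rwa [hIcc]
  have hFTC := intervalIntegral.integral_eq_sub_of_hasDerivAt
    (fun x hx => hG x (by rwa [hIcc] at hx)) (hi1.add hi2)
  rw [intervalIntegral.integral_add hi1 hi2] at hFTC
  have hFTC2 := intervalIntegral.integral_eq_sub_of_hasDerivAt
    (fun x hx => hinv x (by rwa [hIcc] at hx)) hi3
  have hu : u ∈ Set.Icc u v := ⟨le_rfl, huv⟩
  have hv : v ∈ Set.Icc u v := ⟨huv, le_rfl⟩
  have hpu : 0 < φ' u := lt_of_lt_of_le hlam (hlow u hu)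
  have hpv : 0 < φ' v := lt_of_lt_of_le hlam (hlow v hv)
  have hGn : ∀ x ∈ Set.Icc u v, ‖e (φ x) * w * (((φ' x)⁻¹ : ℝ) : ℂ)‖ =
      1 / (2 * Real.pi) * (φ' x)⁻¹ := by
    intro x hx
    have : 0 < φ' x := lt_of_lt_of_le hlam (hlow x hx)
    rw [norm_mul, norm_mul, norm_e, one_mul, hwn, Complex.norm_real, Real.norm_of_nonneg
      (by positivity)]
  have hR : ‖∫ x in u..v, e (φ x) * w * ((-(φ'' x) / (φ' x) ^ 2 : ℝ) : ℂ)‖ ≤
      1 / (2 * Real.pi) * ((φ' u)⁻¹ - (φ' v)⁻¹) := by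
    refine (intervalIntegral.norm_integral_le_integral_norm huv).trans ?_
    have e2 : ∫ x in u..v, ‖e (φ x) * w * ((-(φ'' x) / (φ' x) ^ 2 : ℝ) : ℂ)‖ =
        ∫ x in u..v, 1 / (2 * Real.pi) * -(-(φ'' x) / (φ' x) ^ 2) := by
      apply intervalIntegral.integral_congr
      intro x hx
      rw [hIcc] at hx
      simp only
      rw [norm_mul, norm_mul, norm_e, one_mul, hwn, Complex.norm_real, Real.norm_eq_abs,
        abs_of_nonpos]
      have h5 := hmono x hx
      have h6 : 0 ≤ φ'' x / (φ' x) ^ 2 := by positivity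
      rw [neg_div]
      linarith
    rw [e2, intervalIntegral.integral_const_mul, intervalIntegral.integral_neg, hFTC2]
    apply le_of_eq
    ring
  have e3 : ∫ x in u..v, e (φ x) = (e (φ v) * w * (((φ' v)⁻¹ : ℝ) : ℂ) -
      e (φ u) * w * (((φ' u)⁻¹ : ℝ) : ℂ)) -
        ∫ x in u..v, e (φ x) * w * ((-(φ'' x) / (φ' x) ^ 2 : ℝ) : ℂ) := by
    rw [← hFTC]
    ring
  rw [e3]
  have hpi0 := Real.pi_pos
  calc _ ≤ (1 / (2 * Real.pi) * (φ' v)⁻¹ + 1 / (2 * Real.pi) * (φ' u)⁻¹) +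
        1 / (2 * Real.pi) * ((φ' u)⁻¹ - (φ' v)⁻¹) := by
        refine (norm_sub_le _ _).trans (add_le_add ((norm_sub_le _ _).trans (le_of_eq ?_)) hR)
        rw [hGn v hv, hGn u hu]
    _ = 1 / Real.pi * (φ' u)⁻¹ := by
        field_simp
        ring
    _ ≤ 1 * lam⁻¹ := by
        gcongr
        · rw [div_le_one hpi0]
          linarith [Real.pi_gt_three]
        · exact hlow u hu
    _ = 1 / lam := by rw [one_mul, one_div]

end Pool.Agent.TH668.Met
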